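import Pool.Agent.H98.RFC.Targets
import Pool.Agent.H98.RFZ.Targets2

/-!
# CMEA: tube crossings are local and translation invariant (`MP_057a7e_pr`)
-/

set_option autoImplicit false

noncomputable section

open MeasureTheory ProbabilityTheory Filter Topology

namespace Pool.Agent.H11.RFZ

open Pool.Agent.H98.RFC Pool.Agent.H98.RFZ

theorem nearSeg_shift (y a b x : Site) (r : ℝ) :
    nearSeg (y + a) (y + b) (y + x) r ↔ nearSeg a b x r := by
  unfold nearSeg
  refine exists_congr fun t => and_congr_right fun _ => and_congr_right fun _ => ?_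
  have h1 : (((y + x).1 : ℝ) - (((y + a).1 : ℝ) + t * (((y + b).1 : ℝ) - ((y + a).1 : ℝ)))) =
      ((x.1 : ℝ) - ((a.1 : ℝ) + t * ((b.1 : ℝ) - (a.1 : ℝ)))) := by
    rw [Prod.fst_add, Prod.fst_add, Prod.fst_add]
    push_cast
    ring
  have h2 : (((y + x).2 : ℝ) - (((y + a).2 : ℝ) + t * (((y + b).2 : ℝ) - ((y + a).2 : ℝ)))) =
      ((x.2 : ℝ) - ((a.2 : ℝ) + t * ((b.2 : ℝ) - (a.2 : ℝ)))) := by
    rw [Prod.snd_add, Prod.snd_add, Prod.snd_add]
    push_cast
    ring
  rw [h1, h2]

theorem bx_shift (y a x : Site) (r : ℕ) : y + x ∈ bx (y + a) r ↔ x ∈ bx a r := by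
  unfold bx
  simp only [Finset.mem_product, Finset.mem_Icc, Prod.fst_add, Prod.snd_add]
  constructor <;> rintro ⟨⟨h1, h2⟩, h3, h4⟩ <;> refine ⟨⟨?_, ?_⟩, ?_, ?_⟩ <;> linarith

theorem eb_shift (y z x : Site) (r : ℕ) : y + x ∈ eb (y + z) r ↔ x ∈ eb z r := by
  unfold eb
  rw [Finset.mem_filter, Finset.mem_filter, bx_shift, add_sub_add_left_eq_sub]

theorem tube_shift (y a b : Site) (r : ℕ) :
    tube (y + a) (y + b) r = (tube a b r).image fun x => y + x := by
  classical
  ext x
  have h1 : ((y + b).1 - (y + a).1).natAbs = (b.1 - a.1).natAbs := by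
    rw [Prod.fst_add, Prod.fst_add, add_sub_add_left_eq_sub]
  have h2 : ((y + b).2 - (y + a).2).natAbs = (b.2 - a.2).natAbs := by
    rw [Prod.snd_add, Prod.snd_add, add_sub_add_left_eq_sub]
  have key : ∀ x' : Site, y + x' ∈ tube (y + a) (y + b) r ↔ x' ∈ tube a b r := by
    intro x'
    unfold tube
    rw [Finset.mem_filter, Finset.mem_filter, h1, h2, bx_shift, nearSeg_shift]
  rw [Finset.mem_image]
  constructor
  · intro hx
    refine ⟨x - y, ?_, by abel⟩
    rw [← key]
    have h3 : y + (x - y) = x := by abel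
    rwa [h3]
  · rintro ⟨x', hx', rfl⟩
    exact (key x').mpr hx'

theorem isPath_shift (J : Site → ℝ) (S : Finset Site) (y : Site) (k : ℕ) (x : ℕ → Site) :
    IsPath J (S.image fun z => y + z) k (fun i => y + x i) ↔ IsPath J S k x := by
  unfold IsPath
  refine and_congr ?_ ?_
  · refine forall_congr' fun i => forall_congr' fun _ => ?_
    rw [Finset.mem_image]
    constructor
    · rintro ⟨z, hz, h⟩
      rwa [← add_left_cancel h]
    · intro h
      exact ⟨x i, h, rfl⟩
  · refine forall_congr' fun i => forall_congr' fun _ => ?_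
    rw [add_sub_add_left_eq_sub]

/-- Measurability of the events which depend on the disagreement set. -/
theorem measurable_event (hMEA : Z_MEA) (R : ℕ) (J : Site → ℝ) (ε : ℝ) (Λ : Finset Site)
    (p : Finset Site → Prop) :
    MeasurableSet {η : Site → ℝ | p (Ds R J (fun x => ε * η x) Λ)} := by
  let _ : MeasurableSpace (Finset Site) := ⊤
  have h1 : Measurable (fun h : Site → ℝ => Ds R J h Λ) :=
    measurable_to_countable' fun S => hMEA R J Λ S
  have h2 : Measurable (fun η : Site → ℝ => (fun x => ε * η x : Site → ℝ)) :=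
    measurable_pi_iff.mpr fun x => by
      refine Measurable.const_mul ?_ ε
      exact measurable_pi_apply x
  have h3 : MeasurableSet {S : Finset Site | p S} := trivial
  exact (h1.comp h2) h3

theorem crs_shift (hTRA : Z_TRA) (R : ℕ) (J h : Site → ℝ) (u : ℕ) (v : Site) (K' : ℕ)
    (y : Site) : Crs R J h u v K' y ↔ Crs R J (fun x => h (y + x)) u v K' 0 := by
  classical
  have e0 : y + (0 + sm u v) = y + sm u v := by rw [zero_add]
  have h0 : tube y (y + sm u v) (K' * u) =
      (tube 0 (0 + sm u v) (K' * u)).image fun x => y + x := by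
    have h1 := tube_shift y 0 (0 + sm u v) (K' * u)
    rwa [add_zero, e0] at h1
  have hD := hTRA R J h (tube 0 (0 + sm u v) (K' * u)) y
  rw [← h0] at hD
  have key : ∀ (k : ℕ) (x : ℕ → Site),
      (IsPath J (Ds R J h (tube y (y + sm u v) (K' * u))) k (fun i => y + x i) ∧
        (∀ i, i ≤ k → nearSeg y (y + sm u v) (y + x i) (2 * u)) ∧
        y + x 0 ∈ eb y (2 * u) ∧ y + x k ∈ eb (y + sm u v) (2 * u)) ↔
      (IsPath J (Ds R J (fun x => h (y + x)) (tube 0 (0 + sm u v) (K' * u))) k x ∧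
        (∀ i, i ≤ k → nearSeg 0 (0 + sm u v) (x i) (2 * u)) ∧
        x 0 ∈ eb 0 (2 * u) ∧ x k ∈ eb (0 + sm u v) (2 * u)) := by
    intro k x
    rw [hD, isPath_shift]
    have e1 : ∀ x : Site, nearSeg y (y + sm u v) (y + x) (2 * u) ↔
        nearSeg 0 (0 + sm u v) x (2 * u) := by
      intro x
      have h1 := nearSeg_shift y 0 (0 + sm u v) x (2 * u)
      rwa [add_zero, e0] at h1
    have e2 : y + x 0 ∈ eb y (2 * u) ↔ x 0 ∈ eb 0 (2 * u) := by
      have h1 := eb_shift y 0 (x 0) (2 * u)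
      rwa [add_zero] at h1
    have e3 : y + x k ∈ eb (y + sm u v) (2 * u) ↔ x k ∈ eb (0 + sm u v) (2 * u) := by
      rw [eb_shift, zero_add]
    rw [e2, e3]
    simp only [e1]
  unfold Crs
  constructor
  · rintro ⟨k, x, hx⟩
    refine ⟨k, fun i => x i - y, (key k fun i => x i - y).mp ?_⟩
    have h1 : ∀ i, y + (x i - y) = x i := fun i => by abel
    simp only [h1]
    exact hx
  · rintro ⟨k, x, hx⟩
    exact ⟨k, fun i => y + x i, (key k x).mpr hx⟩

theorem pf_CMEA (hMEA : Z_MEA) (hLOC : Z_LOC) (hTRA : Z_TRA) (hTRG : T_TRG) : C_MEA := by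
  intro R J _ ε u v K' y
  have hm : ∀ y : Site, MeasurableSet {η : Site → ℝ | Crs R J (fun x => ε * η x) u v K' y} :=
    fun y => measurable_event hMEA R J ε (tube y (y + sm u v) (K' * u)) fun S =>
      ∃ (k : ℕ) (x : ℕ → Site), IsPath J S k x ∧
        (∀ i, i ≤ k → nearSeg y (y + sm u v) (x i) (2 * u)) ∧
        x 0 ∈ eb y (2 * u) ∧ x k ∈ eb (y + sm u v) (2 * u)
  refine ⟨hm y, ?_, ?_⟩
  · intro η η' hη hc
    unfold Crs at hc ⊢
    rwa [← hLOC R J (fun x => ε * η x) (fun x => ε * η' x) (tube y (y + sm u v) (K' * u))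
      fun z hz => by rw [hη z hz]]
  · unfold pC
    have hθ : Measurable (fun (η : Site → ℝ) (x : Site) => η (y + x)) :=
      measurable_pi_iff.mpr fun x => measurable_pi_apply (y + x)
    have h1 : {η : Site → ℝ | Crs R J (fun x => ε * η x) u v K' y} =
        (fun (η : Site → ℝ) (x : Site) => η (y + x)) ⁻¹'
          {η : Site → ℝ | Crs R J (fun x => ε * η x) u v K' 0} := by
      ext η
      exact crs_shift hTRA R J (fun x => ε * η x) u v K' y
    rw [h1, ← Measure.map_apply hθ (hm 0), hTRG y]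

end Pool.Agent.H11.RFZ
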