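import Pool.Agent.H98.RFZ.Targets
import Pool.Agent.H98.RFC.Targets
import Pool.Agent.H11.RFC.FAC

/-!
# CUT: the tension and the capacity of a cut (`MP_057a7e_pr`)
-/

set_option autoImplicit false

namespace Pool.Agent.H11.RFZ

open Pool.Agent.H98.RFC Pool.Agent.H98.RFZ

theorem sg_cases (A : Set Site) (x : Site) : (x ∈ A ∧ sg A x = 1) ∨ (x ∉ A ∧ sg A x = -1) := by
  unfold sg
  by_cases h : x ∈ A
  · exact Or.inl ⟨h, if_pos h⟩
  · exact Or.inr ⟨h, if_neg h⟩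

theorem sg_congr {A B : Set Site} {x : Site} (h : x ∈ A ↔ x ∈ B) : sg A x = sg B x := by
  rcases sg_cases A x with ⟨h1, h2⟩ | ⟨h1, h2⟩ <;> rcases sg_cases B x with ⟨h3, h4⟩ | ⟨h3, h4⟩
  · rw [h2, h4]
  · exact absurd (h.mp h1) h3
  · exact absurd (h.mpr h3) h1
  · rw [h2, h4]

/-- The configurations with the parts in `U` exchanged. -/
def swp (U : Finset Site) (A D : Set Site) : Set Site := (A \ ↑U) ∪ (D ∩ ↑U)

theorem sg_swp_in {U : Finset Site} {A D : Set Site} {x : Site} (hx : x ∈ U) :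
    sg (swp U A D) x = sg D x := by
  refine sg_congr ?_
  unfold swp
  simp only [Set.mem_union, Set.mem_sdiff, Set.mem_inter_iff, Finset.mem_coe]
  tauto

theorem sg_swp_out {U : Finset Site} {A D : Set Site} {x : Site} (hx : x ∉ U) :
    sg (swp U A D) x = sg A x := by
  refine sg_congr ?_
  unfold swp
  simp only [Set.mem_union, Set.mem_sdiff, Set.mem_inter_iff, Finset.mem_coe]
  tauto

open Classical in
/-- The change of the energy. -/
theorem en_swp (R : ℕ) (J h : Site → ℝ) (Λ U : Finset Site) (A D : Set Site) :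
    en R J h Λ (swp U A D) + en R J h Λ (swp U D A) =
      en R J h Λ A + en R J h Λ D + 1 / 2 * ∑ p ∈ prs R Λ, J (p.1 - p.2) *
        (if (p.1 ∈ U ∧ p.2 ∉ U) ∨ (p.2 ∈ U ∧ p.1 ∉ U) then
          (sg A p.1 - sg D p.1) * (sg A p.2 - sg D p.2) else 0) := by
  have h1 : ∑ p ∈ prs R Λ, J (p.1 - p.2) * sg (swp U A D) p.1 * sg (swp U A D) p.2 +
      ∑ p ∈ prs R Λ, J (p.1 - p.2) * sg (swp U D A) p.1 * sg (swp U D A) p.2 =
      ∑ p ∈ prs R Λ, J (p.1 - p.2) * sg A p.1 * sg A p.2 +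
      ∑ p ∈ prs R Λ, J (p.1 - p.2) * sg D p.1 * sg D p.2 -
      ∑ p ∈ prs R Λ, J (p.1 - p.2) *
        (if (p.1 ∈ U ∧ p.2 ∉ U) ∨ (p.2 ∈ U ∧ p.1 ∉ U) then
          (sg A p.1 - sg D p.1) * (sg A p.2 - sg D p.2) else 0) := by
    rw [← Finset.sum_add_distrib, ← Finset.sum_add_distrib, ← Finset.sum_sub_distrib]
    refine Finset.sum_congr rfl fun p _ => ?_
    by_cases hp1 : p.1 ∈ U <;> by_cases hp2 : p.2 ∈ U
    · rw [if_neg (by tauto), sg_swp_in hp1, sg_swp_in hp2, sg_swp_in hp1, sg_swp_in hp2]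
      ring
    · rw [if_pos (by tauto), sg_swp_in hp1, sg_swp_out hp2, sg_swp_in hp1, sg_swp_out hp2]
      ring
    · rw [if_pos (by tauto), sg_swp_out hp1, sg_swp_in hp2, sg_swp_out hp1, sg_swp_in hp2]
      ring
    · rw [if_neg (by tauto), sg_swp_out hp1, sg_swp_out hp2, sg_swp_out hp1, sg_swp_out hp2]
      ring
  have h2 : ∑ x ∈ Λ, h x * sg (swp U A D) x + ∑ x ∈ Λ, h x * sg (swp U D A) x =
      ∑ x ∈ Λ, h x * sg A x + ∑ x ∈ Λ, h x * sg D x := by
    rw [← Finset.sum_add_distrib, ← Finset.sum_add_distrib]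
    refine Finset.sum_congr rfl fun x _ => ?_
    by_cases hx : x ∈ U
    · rw [sg_swp_in hx, sg_swp_in hx]
      ring
    · rw [sg_swp_out hx, sg_swp_out hx]
  unfold en
  linarith

open Classical in
/-- The sum over the bonds of the cut. -/
theorem cut_sum {R : ℕ} {J : Site → ℝ} (hJ : IsCoupling R J) (Λ U : Finset Site)
    (D : Set Site) (δ : Site → ℝ) (h0 : ∀ x, 0 ≤ δ x) (h2 : ∀ x, δ x ≤ 2)
    (hD : ∀ x, x ∉ D → δ x = 0) :
    ∑ p ∈ prs R Λ, J (p.1 - p.2) *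
      (if (p.1 ∈ U ∧ p.2 ∉ U) ∨ (p.2 ∈ U ∧ p.1 ∉ U) then δ p.1 * δ p.2 else 0) ≤
      8 * cap R J D U := by
  set g : Site × Site → ℝ := fun p => if p.1 ∈ D ∧ p.2 ∈ D then J (p.1 - p.2) else 0 with hg
  have hg0 : ∀ p, 0 ≤ g p := by
    intro p
    rw [hg]
    dsimp only
    split_ifs
    · exact hJ.nonneg _
    · exact le_rfl
  have hcap : cap R J D U = ∑ p ∈ U ×ˢ (hull R U \ U), g p := by
    rw [Finset.sum_product]
    rfl
  have hsym : ∀ x y : Site, J (x - y) = J (y - x) := by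
    intro x y
    rw [← hJ.even (x - y), neg_sub]
  have hmul : ∀ x y : Site, J (x - y) * (δ x * δ y) ≤ 4 * g (x, y) := by
    intro x y
    rw [hg]
    dsimp only
    by_cases hxy : x ∈ D ∧ y ∈ D
    · rw [if_pos hxy]
      have h3 : δ x * δ y ≤ 2 * 2 := mul_le_mul (h2 x) (h2 y) (h0 y) (by norm_num)
      have h4 := mul_le_mul_of_nonneg_left h3 (hJ.nonneg (x - y))
      linarith
    · rw [if_neg hxy]
      rcases not_and_or.mp hxy with h3 | h3
      · rw [hD x h3]; simp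
      · rw [hD y h3]; simp
  have hpt : ∀ p ∈ prs R Λ, J (p.1 - p.2) *
      (if (p.1 ∈ U ∧ p.2 ∉ U) ∨ (p.2 ∈ U ∧ p.1 ∉ U) then δ p.1 * δ p.2 else 0) ≤
      (if p.1 ∈ U ∧ p.2 ∉ U then 4 * g p else 0) +
      (if p.2 ∈ U ∧ p.1 ∉ U then 4 * g p.swap else 0) := by
    intro p _
    by_cases h3 : p.1 ∈ U ∧ p.2 ∉ U
    · rw [if_pos (Or.inl h3), if_pos h3, if_neg (by tauto), add_zero]
      exact hmul p.1 p.2
    · by_cases h4 : p.2 ∈ U ∧ p.1 ∉ U
      · rw [if_pos (Or.inr h4), if_neg h3, if_pos h4, zero_add, hsym, mul_comm (δ p.1)]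
        exact hmul p.2 p.1
      · rw [if_neg (by tauto), if_neg h3, if_neg h4, mul_zero, add_zero]
  have hin : ∀ p ∈ prs R Λ, p.1 ∈ U → p.2 ∉ U → p ∈ U ×ˢ (hull R U \ U) := by
    intro p hp hp1 hp2
    rw [Pool.Agent.H11.RFC.mem_prs] at hp
    rw [Finset.mem_product, Finset.mem_sdiff]
    refine ⟨hp1, ?_, hp2⟩
    rw [Pool.Agent.H11.RFC.mem_hull]
    refine ⟨p.1, hp1, ?_⟩
    have h3 := hp.2.2
    rw [Pool.Agent.H11.RFC.mem_box, Prod.fst_sub, Prod.snd_sub] at h3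
    rw [Pool.Agent.H11.RFC.mem_bx]
    omega
  have hin' : ∀ p ∈ prs R Λ, p.2 ∈ U → p.1 ∉ U → p.swap ∈ U ×ˢ (hull R U \ U) := by
    intro p hp hp1 hp2
    rw [Pool.Agent.H11.RFC.mem_prs] at hp
    rw [Finset.mem_product, Finset.mem_sdiff]
    refine ⟨hp1, ?_, hp2⟩
    rw [Pool.Agent.H11.RFC.mem_hull]
    refine ⟨p.2, hp1, ?_⟩
    have h3 := hp.2.2
    rw [Pool.Agent.H11.RFC.mem_box, Prod.fst_sub, Prod.snd_sub] at h3
    rw [Pool.Agent.H11.RFC.mem_bx, Prod.snd_swap]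
    omega
  have hs1 : ∑ p ∈ prs R Λ, (if p.1 ∈ U ∧ p.2 ∉ U then 4 * g p else 0) ≤ 4 * cap R J D U := by
    rw [← Finset.sum_filter, ← Finset.mul_sum, hcap]
    refine mul_le_mul_of_nonneg_left ?_ (by norm_num)
    refine Finset.sum_le_sum_of_subset_of_nonneg (fun p hp => ?_) fun p _ _ => hg0 p
    rw [Finset.mem_filter] at hp
    exact hin p hp.1 hp.2.1 hp.2.2
  have hs2 : ∑ p ∈ prs R Λ, (if p.2 ∈ U ∧ p.1 ∉ U then 4 * g p.swap else 0) ≤
      4 * cap R J D U := by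
    rw [← Finset.sum_filter, ← Finset.mul_sum, hcap]
    refine mul_le_mul_of_nonneg_left ?_ (by norm_num)
    have h3 : ∑ p ∈ (prs R Λ).filter (fun p => p.2 ∈ U ∧ p.1 ∉ U), g p.swap =
        ∑ q ∈ ((prs R Λ).filter (fun p => p.2 ∈ U ∧ p.1 ∉ U)).image Prod.swap, g q := by
      rw [Finset.sum_image fun p _ p' _ hpp => Prod.swap_injective hpp]
    rw [h3]
    refine Finset.sum_le_sum_of_subset_of_nonneg (fun q hq => ?_) fun p _ _ => hg0 p
    rw [Finset.mem_image] at hq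
    obtain ⟨p, hp, rfl⟩ := hq
    rw [Finset.mem_filter] at hp
    exact hin' p hp.1 hp.2.1 hp.2.2
  calc _ ≤ ∑ p ∈ prs R Λ, ((if p.1 ∈ U ∧ p.2 ∉ U then 4 * g p else 0) +
        (if p.2 ∈ U ∧ p.1 ∉ U then 4 * g p.swap else 0)) := Finset.sum_le_sum hpt
    _ = ∑ p ∈ prs R Λ, (if p.1 ∈ U ∧ p.2 ∉ U then 4 * g p else 0) +
        ∑ p ∈ prs R Λ, (if p.2 ∈ U ∧ p.1 ∉ U then 4 * g p.swap else 0) :=
        Finset.sum_add_distrib
    _ ≤ 8 * cap R J D U := by linarith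

/-- An extremal ground state of `Λ \ V` is minimal for the energy in `Λ`. -/
theorem em_ge (hDM : T_DM) {R : ℕ} {J : Site → ℝ} (hJ : IsCoupling R J) (h : Site → ℝ)
    (Λ V : Finset Site) (B B' : Set Site) (hBB : B \ (↑(Λ \ V) : Set Site) =
      B' \ (↑(Λ \ V) : Set Site)) {S : Finset Site}
    (hB : B = B') (hS : S ∈ gs R J h (Λ \ V) B) :
    en R J h Λ (↑S ∪ B') ≤ em R J h Λ V B' := by
  classical
  subst hB
  unfold gs at hS
  rw [Finset.mem_filter] at hS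
  unfold Pool.Agent.H98.RFZ.em
  refine Finset.le_inf' _ _ fun S' hS' => ?_
  have h1 := hS.2 S' hS'
  have h2 := hDM R J h (Λ \ V) Λ Finset.sdiff_subset (↑S ∪ B) (↑S' ∪ B) (by
    rw [Finset.mem_powerset] at hS'
    have hS1 := Finset.mem_powerset.mp hS.1
    ext x
    simp only [Set.mem_sdiff, Set.mem_union, Finset.mem_coe]
    constructor
    · rintro ⟨h3 | h3, h4⟩
      · exact absurd (hS1 h3) h4
      · exact ⟨Or.inr h3, h4⟩
    · rintro ⟨h3 | h3, h4⟩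
      · exact absurd (hS' h3) h4
      · exact ⟨Or.inr h3, h4⟩)
  linarith

/-- A trial configuration. -/
theorem em_le {R : ℕ} {J h : Site → ℝ} (Λ V : Finset Site) (B A : Set Site)
    (hA : ∀ x, x ∉ Λ \ V → (x ∈ A ↔ x ∈ B)) (hB : ∀ x ∈ Λ \ V, x ∉ B) :
    em R J h Λ V B ≤ en R J h Λ A := by
  classical
  have h1 : (↑((Λ \ V).filter fun x => x ∈ A) ∪ B : Set Site) = A := by
    ext x
    rw [Set.mem_union, Finset.mem_coe, Finset.mem_filter]
    by_cases hx : x ∈ Λ \ V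
    · constructor
      · rintro (h2 | h2)
        · exact h2.2
        · exact absurd h2 (hB x hx)
      · intro h2
        exact Or.inl ⟨hx, h2⟩
    · constructor
      · rintro (h2 | h2)
        · exact h2.2
        · exact (hA x hx).mpr h2
      · intro h2
        exact Or.inr ((hA x hx).mp h2)
  unfold Pool.Agent.H98.RFZ.em
  have h2 := Finset.inf'_le (fun S : Finset Site => en R J h Λ (↑S ∪ B))
    (Finset.mem_powerset.mpr (Finset.filter_subset (fun x => x ∈ A) (Λ \ V)))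
  rw [h1] at h2
  exact h2

theorem pf_CUT (hDM : T_DM) (hLAT : Z_LAT) (hMB : Z_MB) : Z_CUT := by
  classical
  intro R J hJ h V U Λ hVU hUΛ
  have hcompl : ((↑Λ)ᶜ ∪ ↑V : Set Site) = (↑(Λ \ V))ᶜ := by
    ext x
    simp only [Set.mem_union, Set.mem_compl_iff, Finset.mem_coe, Finset.mem_sdiff]
    tauto
  obtain ⟨-, hSa, -, -⟩ := hLAT R J hJ h (Λ \ V) (↑(Λ \ V))ᶜ disjoint_compl_left
  obtain ⟨-, -, hSd, hSd2⟩ := hLAT R J hJ h (Λ \ V) ∅ (Set.empty_disjoint _)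
  set Sa := gp R J h (Λ \ V) (↑(Λ \ V))ᶜ with hSa'
  set Sd := gn R J h (Λ \ V) ∅ with hSd'
  have hds : Sd ⊆ Sa := by
    have h1 := (hSd2 _ hSd).2
    exact h1.trans (hMB R J hJ h (Λ \ V) ∅ (↑(Λ \ V))ᶜ (Set.empty_subset _)
      (Set.empty_disjoint _) disjoint_compl_left).1
  have hSaW : Sa ⊆ Λ \ V := Finset.filter_subset _ _
  have hSdW : Sd ⊆ Λ \ V := Finset.filter_subset _ _
  obtain ⟨A, hA⟩ : ∃ A : Set Site, A = ↑Sa ∪ ((↑Λ)ᶜ ∪ ↑V) := ⟨_, rfl⟩
  obtain ⟨D, hD⟩ : ∃ D : Set Site, D = ↑Sd ∪ ∅ := ⟨_, rfl⟩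
  have hAmem : ∀ x, x ∈ A ↔ x ∈ Sa ∨ x ∉ Λ ∨ x ∈ V := by
    intro x
    rw [hA]
    simp only [Set.mem_union, Set.mem_compl_iff, Finset.mem_coe]
  have hDmem : ∀ x, x ∈ D ↔ x ∈ Sd := by
    intro x
    rw [hD]
    simp only [Set.union_empty, Finset.mem_coe]
  have ha : en R J h Λ A ≤ em R J h Λ V ((↑Λ)ᶜ ∪ ↑V) := by
    rw [hA]
    exact em_ge hDM hJ h Λ V _ _ (by rw [hcompl]) hcompl.symm hSa
  have hd : en R J h Λ D ≤ em R J h Λ V ∅ := by
    rw [hD]
    exact em_ge hDM hJ h Λ V _ _ rfl rfl hSd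
  have hb : em R J h Λ V (↑Λ)ᶜ ≤ en R J h Λ (swp U A D) := by
    refine em_le Λ V _ _ (fun x hx => ?_) fun x hx hx' => ?_
    · rw [Finset.mem_sdiff, not_and_or, not_not] at hx
      unfold swp
      rw [Set.mem_union, Set.mem_sdiff, Set.mem_inter_iff, hAmem, hDmem, Set.mem_compl_iff,
        Finset.mem_coe, Finset.mem_coe]
      rcases hx with hx | hx
      · have h1 : x ∉ U := fun h => hx (hUΛ h)
        tauto
      · have h1 : x ∈ U := hVU hx
        have h2 : x ∈ Λ := hUΛ h1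
        have h3 : x ∉ Sd := fun h => (Finset.mem_sdiff.mp (hSdW h)).2 hx
        tauto
    · exact hx' (Finset.mem_coe.mpr (Finset.mem_sdiff.mp hx).1)
  have hc : em R J h Λ V ↑V ≤ en R J h Λ (swp U D A) := by
    refine em_le Λ V _ _ (fun x hx => ?_) fun x hx hx' => ?_
    · rw [Finset.mem_sdiff, not_and_or, not_not] at hx
      unfold swp
      rw [Set.mem_union, Set.mem_sdiff, Set.mem_inter_iff, hAmem, hDmem,
        Finset.mem_coe, Finset.mem_coe]
      rcases hx with hx | hx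
      · have h1 : x ∉ U := fun h => hx (hUΛ h)
        have h2 : x ∉ Sd := fun h => hx (Finset.mem_sdiff.mp (hSdW h)).1
        have h3 : x ∉ V := fun h => h1 (hVU h)
        tauto
      · have h1 : x ∈ U := hVU hx
        tauto
    · exact (Finset.mem_sdiff.mp hx).2 (Finset.mem_coe.mp hx')
  have hen := en_swp R J h Λ U A D
  have hδ : ∀ x, (sg A x - sg D x = 0 ∧ ¬ (x ∈ A ∧ x ∉ D)) ∨
      (sg A x - sg D x = 2 ∧ x ∈ A ∧ x ∉ D) := by
    intro x
    rcases sg_cases A x with ⟨h1, h2⟩ | ⟨h1, h2⟩ <;>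
      rcases sg_cases D x with ⟨h3, h4⟩ | ⟨h3, h4⟩
    · left
      rw [h2, h4]
      exact ⟨by norm_num, fun h => h.2 h3⟩
    · right
      rw [h2, h4]
      exact ⟨by norm_num, h1, h3⟩
    · exfalso
      rw [hDmem] at h3
      exact h1 ((hAmem x).mpr (Or.inl (hds h3)))
    · left
      rw [h2, h4]
      exact ⟨by norm_num, fun h => h1 h.1⟩
  have hcut := cut_sum hJ Λ U (↑V ∪ ↑(Ds R J h (Λ \ V)) ∪ (↑Λ)ᶜ)
    (fun x => sg A x - sg D x) (fun x => by rcases hδ x with h1 | h1 <;> rw [h1.1] <;> norm_num)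
    (fun x => by rcases hδ x with h1 | h1 <;> rw [h1.1] <;> norm_num) (fun x hx => by
      rcases hδ x with h1 | h1
      · exact h1.1
      · exfalso
        obtain ⟨-, h2, h3⟩ := h1
        rw [hAmem] at h2
        rw [hDmem] at h3
        refine hx ?_
        rw [Set.mem_union, Set.mem_union, Finset.mem_coe, Finset.mem_coe, Set.mem_compl_iff,
          Finset.mem_coe]
        rcases h2 with h2 | h2 | h2
        · left; right
          unfold Ds
          rw [Finset.mem_sdiff]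
          exact ⟨h2, h3⟩
        · exact Or.inr h2
        · exact Or.inl (Or.inl h2))
  unfold ten
  linarith

end Pool.Agent.H11.RFZ
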