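import Pool.Agent.H98.RFC.Targets
import Pool.Agent.H98.RFZ.Targets3

/-!
# QFIN: planar couplings and all finite range couplings close to them (`MP_057a7e_pr`)
-/

set_option autoImplicit false

noncomputable section

open MeasureTheory ProbabilityTheory Filter Topology

namespace Pool.Agent.H11.RFZ

open Pool.Agent.H98.RFC Pool.Agent.H98.RFZ

theorem pf_QFIN (hQ : Q_ALL) (hALL : T_ALL) : Q_FIN := by
  intro R J₀ hJ₀ hT ε₀ hε₀
  have h1 := hQ R J₀ hJ₀ hT ε₀ hε₀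
  refine ⟨h1, ?_⟩
  obtain ⟨δ, hδ, C, hC, c, hc, h2⟩ := (hALL R).2.2 J₀ hJ₀ 0 ε₀ le_rfl hε₀ h1
  refine ⟨δ, hδ, C, hC, c, hc, fun J hJ T ε hT0 hz hTδ hε L hL => ?_⟩
  refine h2 J hJ T ε hT0 hz ?_ hε L hL
  rw [sub_zero, abs_of_nonneg hT0]
  exact hTδ

end Pool.Agent.H11.RFZ
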