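import Pool.Agent.H98.RFZ.Targets

/-!
# SH: shielding (`MP_057a7e_pr`)
-/

set_option autoImplicit false

namespace Pool.Agent.H11.RFZ

open Pool.Agent.H98.RFC Pool.Agent.H98.RFZ

theorem pf_SH (hRES : Z_RES) (hLOB : Z_LOB) : Z_SH := by
  classical
  intro R J hJ h W Λ hW hsh
  have h1 := (hRES R J hJ h W Λ (↑Λ)ᶜ hW disjoint_compl_left).1
  have h2 := (hRES R J hJ h W Λ ∅ hW (Set.empty_disjoint _)).2
  have hWΛ : Disjoint ((↑Λ : Set Site)ᶜ) (↑W : Set Site) := by
    rw [Set.disjoint_left]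
    intro x hx hx'
    exact hx (Finset.mem_coe.mpr (hW (Finset.mem_coe.mp hx')))
  have hd1 : ∀ G : Finset Site, Disjoint (↑(G \ W) : Set Site) (↑W : Set Site) := by
    intro G
    rw [Set.disjoint_left]
    intro x hx hx'
    exact (Finset.mem_sdiff.mp (Finset.mem_coe.mp hx)).2 (Finset.mem_coe.mp hx')
  have e1 : gs R J h W (↑(gp R J h Λ (↑Λ)ᶜ \ W) ∪ (↑Λ)ᶜ) = gs R J h W (↑W)ᶜ := by
    refine hLOB R J hJ h W _ _ (Set.disjoint_union_left.mpr ⟨hd1 _, hWΛ⟩)
      disjoint_compl_left fun a ha b hb hab => ?_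
    constructor
    · intro _ hb'
      exact hb (Finset.mem_coe.mp hb')
    · intro _
      rcases hsh a ha b hb hab with h3 | h3
      · left
        rw [Finset.mem_coe, Finset.mem_sdiff]
        unfold Ds at h3
        exact ⟨(Finset.mem_sdiff.mp h3).1, hb⟩
      · right
        intro h4
        exact h3 (Finset.mem_coe.mp h4)
  have e2 : gs R J h W (↑(gn R J h Λ ∅ \ W) ∪ ∅) = gs R J h W ∅ := by
    refine hLOB R J hJ h W _ _ (Set.disjoint_union_left.mpr ⟨hd1 _, Set.empty_disjoint _⟩)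
      (Set.empty_disjoint _) fun a ha b hb hab => ?_
    constructor
    · rintro (h4 | h4)
      · rw [Finset.mem_coe, Finset.mem_sdiff] at h4
        rcases hsh a ha b hb hab with h3 | h3
        · unfold Ds at h3
          exact absurd h4.1 (Finset.mem_sdiff.mp h3).2
        · have h5 := h4.1
          unfold gn at h5
          exact absurd (Finset.mem_filter.mp h5).1 h3
      · exact h4
    · intro h4
      exact absurd h4 (Set.notMem_empty _)
  have f1 : gp R J h W (↑(gp R J h Λ (↑Λ)ᶜ \ W) ∪ (↑Λ)ᶜ) = gp R J h W (↑W)ᶜ := by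
    unfold gp at e1 ⊢
    rw [e1]
  have f2 : gn R J h W (↑(gn R J h Λ ∅ \ W) ∪ ∅) = gn R J h W ∅ := by
    unfold gn at e2 ⊢
    rw [e2]
  rw [f1] at h1
  rw [f2] at h2
  unfold Ds
  rw [← h1, ← h2]
  ext x
  simp only [Finset.mem_inter, Finset.mem_sdiff]
  tauto

end Pool.Agent.H11.RFZ
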